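import Mathlib
import Pool.Agent.P.MP_2ce53a_nt.OnlyIf

namespace Pool.Agent.Results.MP_2ce53a_nt.OnlyIf

open Pool.Agent.P.MP_2ce53a_nt

/-- A universal pair lies in the list, with the single possible exception `(3, 57)`. -/
theorem result (j k : ℕ) (hj : 3 ≤ j) (hjk : j ≤ k) (h : Universal j k) :
    InL j k ∨ (j, k) = (3, 57) :=
  only_if hj hjk h

end Pool.Agent.Results.MP_2ce53a_nt.OnlyIf
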