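import Mathlib
import Pool.Agent.P.MP_2ce53a_nt.P3x5.Main
import Pool.Agent.P.MP_2ce53a_nt.P3x7.Main
import Pool.Agent.P.MP_2ce53a_nt.P3x9.Main
import Pool.Agent.P.MP_2ce53a_nt.P3x22.Main
import Pool.Agent.P.MP_2ce53a_nt.P4x6.Main
import Pool.Agent.P.MP_2ce53a_nt.P4x9.Main
import Pool.Agent.P.MP_2ce53a_nt.P4x12.Main
import Pool.Agent.P.MP_2ce53a_nt.P6x7.Main

namespace Pool.Agent.Results.MP_2ce53a_nt.UniversalPairs

open Pool.Agent.P.MP_2ce53a_nt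

/-- Eight pairs of the list are universal. -/
theorem result (j k : ℕ)
    (h : (j, k) ∈ [(3, 5), (3, 7), (3, 9), (3, 22), (4, 6), (4, 9), (4, 12), (6, 7)]) :
    Universal j k := by
  simp only [List.mem_cons, Prod.mk.injEq, List.not_mem_nil, or_false] at h
  rcases h with ⟨rfl, rfl⟩ | ⟨rfl, rfl⟩ | ⟨rfl, rfl⟩ | ⟨rfl, rfl⟩ | ⟨rfl, rfl⟩ | ⟨rfl, rfl⟩ |
    ⟨rfl, rfl⟩ | ⟨rfl, rfl⟩
  exacts [P3x5.universal, P3x7.universal, P3x9.universal, P3x22.universal, P4x6.universal,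
    P4x9.universal, P4x12.universal, P6x7.universal]

end Pool.Agent.Results.MP_2ce53a_nt.UniversalPairs
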